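import Mathlib
import Pool.Agent.H.MP_a6e06b_lc.Final

set_option autoImplicit false

open MeasureTheory ProbabilityTheory

namespace Pool.Agent.Results.MP_a6e06b_lc.SectionsAndKernels

/-- `S` is a complete countable Borel section of `E`: a Borel set that meets every `E`-class in a
nonempty countable set. -/
def IsCompleteCountableSection {X : Type*} [MeasurableSpace X] (E : X → X → Prop) (S : Set X) :
    Prop :=
  MeasurableSet S ∧ ∀ x : X, (S ∩ {y | E x y}).Nonempty ∧ (S ∩ {y | E x y}).Countable

/-- The Markov kernel `x ↦ κ x` (a Borel map from `X` to the probability measures on `X`) is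
adapted to `E`: `κ x` is concentrated on the class of `x`, and the measures of two equivalent
points have the same null sets. -/
def IsAdapted {X : Type*} [MeasurableSpace X] (E : X → X → Prop) (κ : Kernel X X) : Prop :=
  IsMarkovKernel κ ∧ (∀ x : X, κ x {y | E x y} = 1) ∧
    ∀ x y : X, E x y → ∀ N : Set X, κ x N = 0 ↔ κ y N = 0

/-- **Complete countable Borel sections and measure assignments.** -/
theorem result {X : Type*} [MeasurableSpace X] [StandardBorelSpace X] (E : X → X → Prop)
    (hE : Equivalence E) (hEm : MeasurableSet {p : X × X | E p.1 p.2}) :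
    (∃ S : Set X, IsCompleteCountableSection E S) ↔ ∃ κ : Kernel X X, IsAdapted E κ := by
  constructor
  · rintro ⟨B, hB, hB2⟩
    obtain ⟨μ, hμ, hμp, hμ1, hac⟩ := Pool.Agent.H.MP_a6e06b_lc.measure_of_section hE hEm hB
      (fun x => ⟨(hB2 x).2, (hB2 x).1⟩)
    refine ⟨⟨μ, hμ⟩, ⟨hμp⟩, hμ1, ?_⟩
    intro x y hxy N
    exact ⟨fun h => (hac x y hxy).2 h, fun h => (hac x y hxy).1 h⟩
  · rintro ⟨κ, hκ, h1, hac⟩
    obtain ⟨B, hB, hB2⟩ := Pool.Agent.H.MP_a6e06b_lc.section_of_measure hE hEm κ κ.measurable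
      (fun x => hκ.isProbabilityMeasure x) h1 (fun x y hxy =>
        ⟨fun N hN => (hac x y hxy N).2 hN, fun N hN => (hac x y hxy N).1 hN⟩)
    exact ⟨B, hB, fun x => ⟨(hB2 x).2, (hB2 x).1⟩⟩

end Pool.Agent.Results.MP_a6e06b_lc.SectionsAndKernels
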